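import Mathlib

set_option autoImplicit false

/-! Smoothly varying functions of non-integral index. -/

namespace Pool.Agent.N542.PP

open Finset Filter Topology

/-- falling factorial `c (c - 1) ⋯ (c - j + 1)` -/
noncomputable def fall (c : ℝ) (j : ℕ) : ℝ := ∏ i ∈ range j, (c - i)

lemma fall_succ (c : ℝ) (j : ℕ) : fall c (j + 1) = fall c j * (c - j) := by
  rw [fall, prod_range_succ, ← fall]

lemma fall_ne (c : ℝ) (hc : ∀ n : ℕ, c ≠ n) (j : ℕ) : fall c j ≠ 0 := by
  rw [fall, prod_ne_zero_iff]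
  intro i _
  exact sub_ne_zero.mpr (hc i)

/-- `F 0` is smoothly varying with index `c`, `F j` its derivatives -/
structure SV (c : ℝ) (F : ℕ → ℝ → ℝ) : Prop where
  pos : ∀ᶠ t in atTop, 0 < F 0 t
  der : ∀ j, ∀ᶠ t in atTop, HasDerivAt (F j) (F (j + 1) t) t
  lim : ∀ j, Tendsto (fun t => t ^ j * F j t / F 0 t) atTop (𝓝 (fall c j))

lemma ev_forall_le {P : ℕ → ℝ → Prop} (K : ℕ) (h : ∀ m, ∀ᶠ t in atTop, P m t) :
    ∀ᶠ t in atTop, ∀ m ≤ K, P m t := by
  have : ∀ᶠ t in atTop, ∀ m ∈ range (K + 1), P m t := by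
    rw [Filter.eventually_all_finset]
    intro m _
    exact h m
  filter_upwards [this] with t ht m hm
  exact ht m (mem_range.mpr (by omega))

/-- growth of a smoothly varying function over a bounded range -/
lemma SV.growth {c : ℝ} {F : ℕ → ℝ → ℝ} (h : SV c F) (hc : 0 < c) : ∃ D : ℕ, ∃ T : ℝ, 1 ≤ T ∧
    (∀ x y, T ≤ x → x ≤ y → 0 < F 0 x ∧ F 0 x ≤ F 0 y ∧ F 0 y / y ^ D ≤ F 0 x / x ^ D ∧
      F 0 x / x ^ (c / 2) ≤ F 0 y / y ^ (c / 2)) := by
  obtain ⟨D, hD⟩ := exists_nat_gt c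
  have h1 : ∀ᶠ t in atTop, t ^ 1 * F 1 t / F 0 t < D := by
    have := h.lim 1
    exact this.eventually_lt_const (by simpa [fall] using hD)
  have h2 : ∀ᶠ t in atTop, c / 2 < t ^ 1 * F 1 t / F 0 t := by
    have := h.lim 1
    exact this.eventually_const_lt (by simp [fall]; linarith)
  obtain ⟨T, hT⟩ := eventually_atTop.mp (h1.and (h2.and (h.pos.and (h.der 0))))
  refine ⟨D, max T 1, le_max_right _ _, ?_⟩
  have hT1 : ∀ t, max T 1 ≤ t → 1 ≤ t ∧ 0 < F 0 t ∧ t * F 1 t ≤ D * F 0 t ∧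
      c / 2 * F 0 t ≤ t * F 1 t ∧ HasDerivAt (F 0) (F 1 t) t := by
    intro t ht
    obtain ⟨a1, a2, a3, a4⟩ := hT t ((le_max_left _ _).trans ht)
    rw [pow_one, div_lt_iff₀ a3] at a1
    rw [pow_one, lt_div_iff₀ a3] at a2
    exact ⟨(le_max_right _ _).trans ht, a3, a1.le, a2.le, a4⟩
  have m1 : MonotoneOn (F 0) (Set.Ici (max T 1)) := by
    apply monotoneOn_of_deriv_nonneg (convex_Ici _)
    · intro t ht
      exact (hT1 t ht).2.2.2.2.continuousAt.continuousWithinAt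
    · intro t ht
      rw [interior_Ici] at ht
      exact (hT1 t ht.le).2.2.2.2.differentiableAt.differentiableWithinAt
    · intro t ht
      rw [interior_Ici] at ht
      obtain ⟨b1, b2, b3, b4, b5⟩ := hT1 t ht.le
      rw [b5.deriv]
      have : 0 ≤ t * F 1 t := by
        have : 0 ≤ c / 2 * F 0 t := by positivity
        linarith
      exact nonneg_of_mul_nonneg_right (by linarith) (show (0:ℝ) < t by linarith)
  have m2 : AntitoneOn (fun t => F 0 t / t ^ D) (Set.Ici (max T 1)) := by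
    have hder : ∀ t, max T 1 ≤ t → HasDerivAt (fun t => F 0 t / t ^ D)
        ((F 1 t * t ^ D - F 0 t * (D * t ^ (D - 1))) / (t ^ D) ^ 2) t := by
      intro t ht
      obtain ⟨b1, b2, b3, b4, b5⟩ := hT1 t ht
      exact b5.div (hasDerivAt_pow D t) (by positivity)
    apply antitoneOn_of_deriv_nonpos (convex_Ici _)
    · intro t ht
      exact (hder t ht).continuousAt.continuousWithinAt
    · intro t ht
      rw [interior_Ici] at ht
      exact (hder t ht.le).differentiableAt.differentiableWithinAt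
    · intro t ht
      rw [interior_Ici] at ht
      obtain ⟨b1, b2, b3, b4, b5⟩ := hT1 t ht.le
      rw [(hder t ht.le).deriv]
      apply div_nonpos_of_nonpos_of_nonneg _ (by positivity)
      rcases Nat.eq_zero_or_pos D with rfl | hDp
      · exfalso
        have : (0 : ℝ) < ((0 : ℕ) : ℝ) := lt_trans hc hD
        simp at this
      · obtain ⟨k, rfl⟩ : ∃ k, D = k + 1 := ⟨D - 1, by omega⟩
        rw [Nat.add_sub_cancel]
        have h3 : F 1 t * t ^ (k + 1) - F 0 t * (((k + 1 : ℕ) : ℝ) * t ^ k) =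
            t ^ k * (t * F 1 t - ((k + 1 : ℕ) : ℝ) * F 0 t) := by ring
        rw [h3]
        apply mul_nonpos_of_nonneg_of_nonpos (by positivity)
        linarith
  have m3 : MonotoneOn (fun t => F 0 t / t ^ (c / 2)) (Set.Ici (max T 1)) := by
    have hder : ∀ t, max T 1 ≤ t → HasDerivAt (fun t => F 0 t / t ^ (c / 2))
        ((F 1 t * t ^ (c / 2) - F 0 t * (c / 2 * t ^ (c / 2 - 1))) / (t ^ (c / 2)) ^ 2) t := by
      intro t ht
      obtain ⟨b1, b2, b3, b4, b5⟩ := hT1 t ht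
      exact b5.div (Real.hasDerivAt_rpow_const (Or.inl (by positivity))) (by positivity)
    apply monotoneOn_of_deriv_nonneg (convex_Ici _)
    · intro t ht
      exact (hder t ht).continuousAt.continuousWithinAt
    · intro t ht
      rw [interior_Ici] at ht
      exact (hder t ht.le).differentiableAt.differentiableWithinAt
    · intro t ht
      rw [interior_Ici] at ht
      obtain ⟨b1, b2, b3, b4, b5⟩ := hT1 t ht.le
      rw [(hder t ht.le).deriv]
      apply div_nonneg _ (by positivity)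
      have ht0 : 0 < t := by linarith
      have e1 : t ^ (c / 2) = t ^ (c / 2 - 1) * t := by
        rw [← Real.rpow_add_one (by positivity)]
        congr 1
        ring
      rw [e1]
      have h3 : F 1 t * (t ^ (c / 2 - 1) * t) - F 0 t * (c / 2 * t ^ (c / 2 - 1)) =
          t ^ (c / 2 - 1) * (t * F 1 t - c / 2 * F 0 t) := by ring
      rw [h3]
      apply mul_nonneg (by positivity)
      linarith
  intro x y hx hxy
  exact ⟨(hT1 x hx).2.1, m1 hx (hx.trans hxy) hxy, m2 hx (hx.trans hxy) hxy,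
    m3 hx (hx.trans hxy) hxy⟩

/-- the bounds for the derivatives -/
theorem SV.bounds {c : ℝ} {F : ℕ → ℝ → ℝ} (h : SV c F) (hc : 0 < c) (hcn : ∀ n : ℕ, c ≠ n)
    (Q : ℕ) (hQ : c < Q + 1) : ∃ c₁ c₂ T : ℝ, ∃ s : ℕ → ℝ, 0 < c₁ ∧ c₁ ≤ c₂ ∧ 1 ≤ T ∧
    (∀ m, s m = 1 ∨ s m = -1) ∧ s (Q + 2) = -s (Q + 1) ∧
    ∀ N t : ℝ, T ≤ N → N ≤ t → t ≤ 4 * N → 0 < F 0 N ∧ ∀ m ≤ Q + 2,
      HasDerivAt (F m) (F (m + 1) t) t ∧
      c₁ * F 0 N ≤ s m * (t ^ m * F m t) ∧ s m * (t ^ m * F m t) ≤ c₂ * F 0 N ∧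
      c₁ * F 0 N ≤ s m * (m * (t ^ m * F m t) + t ^ (m + 1) * F (m + 1) t) ∧
      s m * (m * (t ^ m * F m t) + t ^ (m + 1) * F (m + 1) t) ≤ c₂ * F 0 N := by
  classical
  obtain ⟨D, T₁, hT₁1, hgr⟩ := h.growth hc
  set s : ℕ → ℝ := fun m => if 0 < fall c m then 1 else -1 with hs
  have hs1 : ∀ m, s m = 1 ∨ s m = -1 := by
    intro m
    simp only [hs]
    split_ifs
    · left; rfl
    · right; rfl
  have hsabs : ∀ m, s m * fall c m = |fall c m| := by
    intro m
    simp only [hs]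
    split_ifs with h1
    · rw [one_mul, abs_of_pos h1]
    · rw [abs_of_nonpos (not_lt.mp h1)]
      ring
  -- uniform lower and upper bounds for the falling factorials
  obtain ⟨κ, hκ0, hκ⟩ : ∃ κ : ℝ, 0 < κ ∧ ∀ m ≤ Q + 2, κ ≤ |fall c m| ∧ κ ≤ c * |fall c m| := by
    have hne : (range (Q + 3)).Nonempty := ⟨0, by simp⟩
    refine ⟨(range (Q + 3)).inf' hne (fun m => min |fall c m| (c * |fall c m|)), ?_, ?_⟩
    · rw [Finset.lt_inf'_iff]
      intro m _
      have := abs_pos.mpr (fall_ne c hcn m)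
      exact lt_min this (by positivity)
    · intro m hm
      have h1 := Finset.inf'_le (s := range (Q + 3)) (fun m => min |fall c m| (c * |fall c m|))
        (mem_range.mpr (by omega : m < Q + 3))
      exact ⟨h1.trans (min_le_left _ _), h1.trans (min_le_right _ _)⟩
  obtain ⟨K, hK⟩ : ∃ K : ℝ, ∀ m ≤ Q + 2, |fall c m| ≤ K ∧ c * |fall c m| ≤ K := by
    have hne : (range (Q + 3)).Nonempty := ⟨0, by simp⟩
    refine ⟨(range (Q + 3)).sup' hne (fun m => max |fall c m| (c * |fall c m|)), ?_⟩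
    intro m hm
    have h1 := Finset.le_sup' (s := range (Q + 3)) (fun m => max |fall c m| (c * |fall c m|))
      (mem_range.mpr (by omega : m < Q + 3))
    exact ⟨(le_max_left _ _).trans h1, (le_max_right _ _).trans h1⟩
  have hlimB : ∀ m : ℕ, Tendsto (fun t => s m * (m * (t ^ m * F m t / F 0 t) +
      t ^ (m + 1) * F (m + 1) t / F 0 t)) atTop (𝓝 (c * |fall c m|)) := by
    intro m
    have h1 := (((h.lim m).const_mul (m : ℝ)).add (h.lim (m + 1))).const_mul (s m)
    have h2 : s m * (m * fall c m + fall c (m + 1)) = c * |fall c m| := by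
      rw [fall_succ, ← hsabs]
      ring
    rwa [h2] at h1
  have hlimA : ∀ m : ℕ, Tendsto (fun t => s m * (t ^ m * F m t / F 0 t)) atTop
      (𝓝 (|fall c m|)) := by
    intro m
    have h1 := (h.lim m).const_mul (s m)
    rwa [hsabs] at h1
  have e1 : ∀ᶠ t in atTop, ∀ m ≤ Q + 2, m ≤ Q + 2 →
      κ / 2 < s m * (t ^ m * F m t / F 0 t) ∧ s m * (t ^ m * F m t / F 0 t) < K + 1 ∧
      κ / 2 < s m * (m * (t ^ m * F m t / F 0 t) + t ^ (m + 1) * F (m + 1) t / F 0 t) ∧
      s m * (m * (t ^ m * F m t / F 0 t) + t ^ (m + 1) * F (m + 1) t / F 0 t) < K + 1 ∧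
      HasDerivAt (F m) (F (m + 1) t) t := by
    apply ev_forall_le
    intro m
    by_cases hm : m ≤ Q + 2
    · obtain ⟨a1, a2⟩ := hκ m hm
      obtain ⟨a3, a4⟩ := hK m hm
      filter_upwards [(hlimA m).eventually_const_lt (show κ / 2 < _ by linarith),
        (hlimA m).eventually_lt_const (show _ < K + 1 by linarith),
        (hlimB m).eventually_const_lt (show κ / 2 < _ by linarith),
        (hlimB m).eventually_lt_const (show _ < K + 1 by linarith), h.der m] with t b1 b2 b3 b4 b5 _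
      exact ⟨b1, b2, b3, b4, b5⟩
    · exact Eventually.of_forall fun t h1 => absurd h1 hm
  obtain ⟨T₂, hT₂⟩ := eventually_atTop.mp e1
  have hKκ : κ ≤ K := (hκ 0 (by omega)).1.trans (hK 0 (by omega)).1
  have h4D : (1 : ℝ) ≤ 4 ^ D := one_le_pow₀ (by norm_num)
  refine ⟨κ / 2, (K + 1) * 4 ^ D, max T₁ T₂, s, by positivity, by nlinarith,
    hT₁1.trans (le_max_left _ _), hs1, ?_, ?_⟩
  · -- the sign changes
    have h1 : fall c (Q + 2) = fall c (Q + 1) * (c - (Q + 1 : ℕ)) := fall_succ c (Q + 1)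
    have h2 : c - ((Q + 1 : ℕ) : ℝ) < 0 := by push_cast; linarith
    have h3 := fall_ne c hcn (Q + 1)
    simp only [hs]
    rcases lt_or_gt_of_ne h3 with h4 | h4
    · rw [if_pos (by rw [h1]; exact mul_pos_of_neg_of_neg h4 h2), if_neg (by linarith)]
      norm_num
    · rw [if_neg (by rw [h1]; nlinarith), if_pos h4]
  intro N t hN hNt ht
  have hN1 : T₁ ≤ N := (le_max_left _ _).trans hN
  have hN2 : T₂ ≤ t := (le_max_right _ _).trans (hN.trans hNt)
  obtain ⟨g1, g2, g3, _⟩ := hgr N t hN1 hNt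
  have hN0 : 1 ≤ N := hT₁1.trans hN1
  have ht0 : 0 < t := by linarith
  have g4 : F 0 t ≤ 4 ^ D * F 0 N := by
    rw [div_le_iff₀ (by positivity)] at g3
    refine g3.trans ?_
    have h5 : t ^ D ≤ (4 * N) ^ D := pow_le_pow_left₀ ht0.le ht D
    rw [mul_pow] at h5
    calc F 0 N / N ^ D * t ^ D ≤ F 0 N / N ^ D * (4 ^ D * N ^ D) := by gcongr
      _ = 4 ^ D * F 0 N := by field_simp
  have ht1 : 0 < F 0 t := lt_of_lt_of_le g1 g2
  refine ⟨g1, fun m hm => ?_⟩
  obtain ⟨b1, b2, b3, b4, b5⟩ := hT₂ t hN2 m hm hm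
  have hAe : s m * (t ^ m * F m t / F 0 t) = s m * (t ^ m * F m t) / F 0 t := by ring
  have hBe : s m * (m * (t ^ m * F m t / F 0 t) + t ^ (m + 1) * F (m + 1) t / F 0 t) =
      s m * (m * (t ^ m * F m t) + t ^ (m + 1) * F (m + 1) t) / F 0 t := by ring
  rw [hAe] at b1 b2
  rw [hBe] at b3 b4
  rw [lt_div_iff₀ ht1] at b1 b3
  rw [div_lt_iff₀ ht1] at b2 b4
  have hlo : κ / 2 * F 0 N ≤ κ / 2 * F 0 t := by gcongr
  have hhi : (K + 1) * F 0 t ≤ (K + 1) * 4 ^ D * F 0 N := by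
    rw [mul_assoc]
    apply mul_le_mul_of_nonneg_left g4 (by linarith)
  exact ⟨b5, by linarith, by linarith, by linarith, by linarith⟩

end Pool.Agent.N542.PP
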