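import Pool.Agent.TH915.PW.Exp

set_option autoImplicit false

/-!
Exponential sums with smooth phases all of whose derivatives have the expected size: the
inequality of van der Corput with the average over the shifts, and the inequality of Kusmin and
Landau.
-/

namespace Pool.Agent.N542.PP

open Finset
open Pool.Agent.H469R2.NK (e norm_e e_add conj_e vdcH kusmin_landau_anti norm_sum_neg Av Av_le
  Cq Cq_pos iterate harm_le)
open Pool.Agent.TH915.PW (Hy SD SD_sq SD_le)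

/-- the inequality with the average over the shifts -/
theorem exp_bound_avg {k : ℕ} {A B lo hi : ℝ} {φ : ℕ → ℝ → ℝ} (hlo : 0 < lo) (hhi : 0 ≤ hi) (θ : ℝ)
    (hθ : 0 < θ) (h : Hy k A B lo hi φ) (u : ℝ) (N L H : ℕ) (hN : 1 ≤ N) (hL : L ≤ N)
    (hu : A ≤ u) (huL : u + L ≤ B) (hH : 1 ≤ H) (hHN : H ≤ N)
    (hup : 2 * (θ * (hi * (H : ℝ) ^ k)) ≤ 1) :
    (‖∑ n ∈ range L, e (θ * φ 0 (u + n))‖ / N) ^ (2 ^ k) ≤
      Cq k * (1 / H + 2 / (θ * lo) / N * ((∑ l ∈ Ico 1 H, (1 : ℝ) / l) / H) ^ k) := by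
  have hN' : (1 : ℝ) ≤ N := by exact_mod_cast hN
  have hH' : (1 : ℝ) ≤ H := by exact_mod_cast hH
  have hL' : (L : ℝ) ≤ N := by exact_mod_cast hL
  have hHN' : (H : ℝ) ≤ N := by exact_mod_cast hHN
  have hstep : ∀ ls : List ℕ, (‖SD φ θ u L ls‖ / N) ^ 2 ≤
      2 / H + 4 * ((∑ l ∈ Ico 1 H, ‖SD φ θ u L (l :: ls)‖ / N) / H) := by
    intro ls
    have h := SD_sq φ θ u L H ls
    set Sg := ∑ l ∈ Ico 1 H, ‖SD φ θ u L (l :: ls)‖ with hSg
    have hSg0 : 0 ≤ Sg := sum_nonneg fun _ _ => norm_nonneg _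
    have h2 : (H : ℝ) * ‖SD φ θ u L ls‖ ^ 2 ≤ (2 * N) * (N + 2 * Sg) := by
      refine h.trans ?_
      have : (L : ℝ) + H ≤ 2 * N := by linarith
      gcongr
    rw [← sum_div, ← hSg]
    have e1 : 2 / (H : ℝ) + 4 * (Sg / N / H) = ((2 * N) * (N + 2 * Sg)) / (H * N ^ 2) := by
      field_simp
      ring
    rw [e1, div_pow, div_le_div_iff₀ (by positivity) (by positivity)]
    calc ‖SD φ θ u L ls‖ ^ 2 * (H * N ^ 2) = ((H : ℝ) * ‖SD φ θ u L ls‖ ^ 2) * N ^ 2 := by ring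
      _ ≤ _ := by gcongr
  have hit := iterate hH (fun ls => ‖SD φ θ u L ls‖ / N) (fun ls => by positivity) hstep k []
  have hSS : ∑ n ∈ range L, e (θ * φ 0 (u + n)) = SD φ θ u L [] := by
    unfold SD
    simp only [List.sum_nil, Nat.sub_zero]
    rfl
  rw [hSS]
  refine hit.trans ?_
  have hC := Cq_pos k
  gcongr
  have h1 := Av_le (H := H) (T := fun ls => ‖SD φ θ u L ls‖ / N)
    (κ := 2 / (θ * lo) / N) k (by
      intro ls hlen hent
      have hpos : 0 < ls.prod := List.prod_pos fun l hl => (hent l hl).1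
      have hle : ls.prod ≤ H ^ k := by
        have := List.prod_le_pow_card ls H (fun l hl => (hent l hl).2.le)
        rwa [hlen] at this
      have hle' : ((ls.prod : ℕ) : ℝ) ≤ (H : ℝ) ^ k := by exact_mod_cast hle
      have h1 := SD_le hlo θ hθ h u L hu huL ls hpos hlen (by
        refine le_trans ?_ hup
        gcongr)
      have hP : (0 : ℝ) < (ls.prod : ℕ) := by exact_mod_cast hpos
      calc ‖SD φ θ u L ls‖ / N ≤ (2 / (θ * lo * (ls.prod : ℕ))) / N := by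
            gcongr
        _ = _ := by field_simp) k [] (by simp) (by simp)
  refine h1.trans (le_of_eq ?_)
  simp

/-- the range of large phases -/
theorem vdc_high (Q : ℕ) (hQ : 1 ≤ Q) (c₁ c₂ : ℝ) (hc₁ : 0 < c₁) (hc₂ : c₁ ≤ c₂) :
    ∃ η : ℝ, 0 < η ∧ η ≤ 1 ∧ ∃ C : ℝ, 1 ≤ C ∧ ∀ (N L : ℕ) (u F : ℝ) (φ : ℕ → ℝ → ℝ),
      1 ≤ N → L ≤ N → (N : ℝ) ^ (1 / 2 : ℝ) ≤ F → F ≤ (N : ℝ) ^ Q →
      Hy Q u (u + L) (c₁ * F / (N : ℝ) ^ (Q + 1)) (c₂ * F / (N : ℝ) ^ (Q + 1)) φ →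
      ‖∑ n ∈ range L, e (φ 0 (u + n))‖ ≤ C * (N : ℝ) ^ (1 - η) := by
  set η : ℝ := 1 / (4 * Q * 2 ^ Q) with hη
  have hQ' : (1 : ℝ) ≤ Q := by exact_mod_cast hQ
  have hη0 : 0 < η := by rw [hη]; positivity
  have hη1 : η ≤ 1 := by
    rw [hη, div_le_one (by positivity)]
    have h2 : (1 : ℝ) ≤ 2 ^ Q := one_le_pow₀ (by norm_num)
    nlinarith
  set N0 : ℝ := max 16 ((2 * c₂) ^ 2) with hN0
  set K : ℝ := Cq Q * (2 + (2 / c₁) * 2 ^ Q * (1 + 4 * Q) ^ Q) with hK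
  have hCq := Cq_pos Q
  have hc₂0 : 0 < c₂ := by linarith
  have hK0 : 0 < K := by rw [hK]; positivity
  set C : ℝ := max (max 18 N0) (K ^ ((1 : ℝ) / 2 ^ Q)) with hC
  have hC18 : 18 ≤ C := (le_max_left _ _).trans (le_max_left _ _)
  have hCN0 : N0 ≤ C := (le_max_right _ _).trans (le_max_left _ _)
  have hCK : K ^ ((1 : ℝ) / 2 ^ Q) ≤ C := le_max_right _ _
  refine ⟨η, hη0, hη1, C, by linarith, ?_⟩
  intro N L u F φ hN hL hF1 hF2 hHy
  have hN' : (1 : ℝ) ≤ N := by exact_mod_cast hN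
  have hNpos : (0 : ℝ) < N := by linarith
  have hF0 : 0 < F := lt_of_lt_of_le (by positivity) hF1
  set S : ℝ := ‖∑ n ∈ range L, e (φ 0 (u + n))‖ with hS
  have hS0 : 0 ≤ S := norm_nonneg _
  have htriv : S ≤ N := by
    rw [hS]
    refine (norm_sum_le _ _).trans ?_
    simp only [norm_e, sum_const, card_range, nsmul_eq_mul, mul_one]
    exact_mod_cast hL
  rcases lt_or_ge (N : ℝ) N0 with hsmall | hbig
  · refine htriv.trans ?_
    calc (N : ℝ) ≤ N0 * 1 := by linarith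
      _ ≤ C * (N : ℝ) ^ (1 - η) := by
        gcongr
        exact Real.one_le_rpow hN' (by linarith)
  have h16 : (16 : ℝ) ≤ N := (le_max_left _ _).trans hbig
  have hfac : (2 * c₂) ^ 2 ≤ N := (le_max_right _ _).trans hbig
  set h : ℝ := ((N : ℝ) ^ (Q + 1 / 2 : ℝ) / F) ^ ((1 : ℝ) / Q) with hh
  have hhQ : h ^ Q = (N : ℝ) ^ (Q + 1 / 2 : ℝ) / F := by
    rw [hh, ← Real.rpow_natCast, ← Real.rpow_mul (by positivity),
      one_div_mul_cancel (show (Q : ℝ) ≠ 0 by positivity), Real.rpow_one]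
  have hh0 : 0 ≤ h := by rw [hh]; positivity
  have hlow : (N : ℝ) ^ (1 / 2 : ℝ) ≤ h ^ Q := by
    rw [hhQ, le_div_iff₀ hF0]
    calc (N : ℝ) ^ (1 / 2 : ℝ) * F ≤ (N : ℝ) ^ (1 / 2 : ℝ) * (N : ℝ) ^ Q := by gcongr
      _ = _ := by
        rw [← Real.rpow_natCast, ← Real.rpow_add hNpos]
        congr 1; ring
  have hupp : h ^ Q ≤ (N : ℝ) ^ Q := by
    rw [hhQ, div_le_iff₀ hF0]
    calc (N : ℝ) ^ (Q + 1 / 2 : ℝ) = (N : ℝ) ^ Q * (N : ℝ) ^ (1 / 2 : ℝ) := by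
          rw [Real.rpow_add hNpos, Real.rpow_natCast]
      _ ≤ _ := by gcongr
  have hhN : h ≤ N := le_of_pow_le_pow_left₀ (by omega) (by positivity) hupp
  have hN12 : (1 : ℝ) ≤ (N : ℝ) ^ (1 / 2 : ℝ) := Real.one_le_rpow hN' (by norm_num)
  have hh1 : 1 ≤ h := by
    by_contra hlt
    rw [not_le] at hlt
    have : h ^ Q ≤ 1 := pow_le_one₀ hh0 hlt.le
    have h4 : (4 : ℝ) ≤ (N : ℝ) ^ (1 / 2 : ℝ) := by
      calc (4 : ℝ) = (16 : ℝ) ^ (1 / 2 : ℝ) := by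
            rw [show (16 : ℝ) = 4 ^ (2 : ℝ) by norm_num, ← Real.rpow_mul (by norm_num)]; norm_num
        _ ≤ _ := by gcongr
    linarith
  set H : ℕ := ⌊h⌋₊ with hH
  have hH1 : 1 ≤ H := Nat.one_le_floor_iff _ |>.mpr hh1
  have hHle : (H : ℝ) ≤ h := Nat.floor_le hh0
  have hHN : H ≤ N := by exact_mod_cast hHle.trans hhN
  have hHge : h / 2 ≤ H := by
    have h1 : h < H + 1 := Nat.lt_floor_add_one h
    have h2 : (1 : ℝ) ≤ H := by exact_mod_cast hH1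
    linarith
  have hH1' : (1 : ℝ) ≤ H := by exact_mod_cast hH1
  have hsq : 2 * c₂ ≤ (N : ℝ) ^ (1 / 2 : ℝ) := by
    rw [← Real.sqrt_eq_rpow]
    exact Real.le_sqrt_of_sq_le hfac
  have hFh : F * h ^ Q = (N : ℝ) ^ (Q + 1 / 2 : ℝ) := by rw [hhQ]; field_simp
  have hcond : 2 * (1 * (c₂ * F / (N : ℝ) ^ (Q + 1) * (H : ℝ) ^ Q)) ≤ 1 := by
    have e1 : (N : ℝ) ^ (Q + 1) = (N : ℝ) ^ (Q + 1 / 2 : ℝ) * (N : ℝ) ^ (1 / 2 : ℝ) := by
      rw [← Real.rpow_add hNpos, ← Real.rpow_natCast]; congr 1; push_cast; ring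
    have e2 : 2 * (1 * (c₂ * F / (N : ℝ) ^ (Q + 1) * (H : ℝ) ^ Q)) =
        2 * c₂ * (F * (H : ℝ) ^ Q) / (N : ℝ) ^ (Q + 1) := by
      ring
    rw [e2, div_le_one (by positivity), e1, ← hFh]
    calc 2 * c₂ * (F * (H : ℝ) ^ Q) ≤ (N : ℝ) ^ (1 / 2 : ℝ) * (F * h ^ Q) := by gcongr
      _ = _ := by ring
  have hb := exp_bound_avg (θ := 1) (by positivity) (by positivity) one_pos hHy u N L H hN hL
    le_rfl le_rfl hH1 hHN hcond
  simp only [one_mul] at hb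
  rw [← hS] at hb
  -- first term
  have hhlow : (N : ℝ) ^ ((1 : ℝ) / (2 * Q)) ≤ h := by
    have : ((N : ℝ) ^ ((1 : ℝ) / (2 * Q))) ^ Q ≤ h ^ Q := by
      rw [← Real.rpow_natCast, ← Real.rpow_mul (by positivity)]
      refine le_trans (le_of_eq ?_) hlow
      congr 1; field_simp
    exact le_of_pow_le_pow_left₀ (by omega) hh0 this
  have hQpos : (0 : ℝ) < Q := by linarith
  have hterm1 : 1 / (H : ℝ) ≤ 2 * (N : ℝ) ^ (-(1 : ℝ) / (4 * Q)) := by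
    have h1 : (0 : ℝ) < (N : ℝ) ^ ((1 : ℝ) / (4 * Q)) := by positivity
    have h2 : (N : ℝ) ^ ((1 : ℝ) / (4 * Q)) ≤ (N : ℝ) ^ ((1 : ℝ) / (2 * Q)) := by
      apply Real.rpow_le_rpow_of_exponent_le hN'
      gcongr; norm_num
    rw [neg_div, Real.rpow_neg (by positivity), ← div_eq_mul_inv, div_le_div_iff₀ (by positivity) h1]
    linarith
  have hlog : 1 + Real.log H ≤ (1 + 4 * Q) * (N : ℝ) ^ ((1 : ℝ) / (4 * Q)) := by
    have h1 : Real.log H ≤ Real.log N := Real.log_le_log (by positivity) (by exact_mod_cast hHN)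
    have h2 := Real.log_le_rpow_div (x := N) (ε := (1 : ℝ) / (4 * Q)) (by positivity) (by positivity)
    have h3 : (N : ℝ) ^ ((1 : ℝ) / (4 * Q)) / ((1 : ℝ) / (4 * Q)) = 4 * Q * (N : ℝ) ^ ((1 : ℝ) / (4 * Q)) := by
      field_simp
    have h4 : (1 : ℝ) ≤ (N : ℝ) ^ ((1 : ℝ) / (4 * Q)) := Real.one_le_rpow hN' (by positivity)
    rw [h3] at h2
    nlinarith
  have hNQ : (0 : ℝ) < (N : ℝ) ^ ((1 : ℝ) / (4 * Q)) := by positivity
  have hterm2 : 2 / (c₁ * F / (N : ℝ) ^ (Q + 1)) / N * ((∑ l ∈ Ico 1 H, (1 : ℝ) / l) / H) ^ Q ≤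
      (2 / c₁) * 2 ^ Q * (1 + 4 * Q) ^ Q * (N : ℝ) ^ (-(1 : ℝ) / (4 * Q)) := by
    have hs0 : 0 ≤ ∑ l ∈ Ico 1 H, (1 : ℝ) / l := sum_nonneg fun _ _ => by positivity
    have h1 : ((∑ l ∈ Ico 1 H, (1 : ℝ) / l) / H) ^ Q ≤
        (((1 + 4 * Q) * (N : ℝ) ^ ((1 : ℝ) / (4 * Q))) / (h / 2)) ^ Q := by
      gcongr
      exact (harm_le H).trans hlog
    have h2 : (((1 + 4 * Q) * (N : ℝ) ^ ((1 : ℝ) / (4 * Q))) / (h / 2)) ^ Q =
        (1 + 4 * Q) ^ Q * (N : ℝ) ^ ((1 : ℝ) / 4) * 2 ^ Q / h ^ Q := by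
      rw [div_pow, mul_pow, div_pow, div_div_eq_mul_div]
      congr 3
      rw [← Real.rpow_natCast, ← Real.rpow_mul (by positivity)]
      congr 1; field_simp
    have h3 : (N : ℝ) ^ ((1 : ℝ) / 4) * (N : ℝ) ^ Q * (N : ℝ) ^ ((1 : ℝ) / (4 * Q)) ≤ F * h ^ Q := by
      rw [hFh, ← Real.rpow_natCast, ← Real.rpow_add hNpos, ← Real.rpow_add hNpos]
      apply Real.rpow_le_rpow_of_exponent_le hN'
      have : (1 : ℝ) / (4 * Q) ≤ 1 / 4 := by
        rw [div_le_div_iff₀ (by positivity) (by norm_num)]; linarith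
      linarith
    have hhp : 0 < h ^ Q := by positivity
    calc _ ≤ (2 / (c₁ * F / (N : ℝ) ^ (Q + 1)) / N) *
          ((1 + 4 * Q) ^ Q * (N : ℝ) ^ ((1 : ℝ) / 4) * 2 ^ Q / h ^ Q) := by rw [← h2]; gcongr
      _ = (2 / c₁) * 2 ^ Q * (1 + 4 * Q) ^ Q *
          (((N : ℝ) ^ ((1 : ℝ) / 4) * (N : ℝ) ^ Q) / (F * h ^ Q)) := by
          rw [pow_succ (N : ℝ) Q]
          field_simp
      _ ≤ _ := by
          gcongr
          rw [neg_div, Real.rpow_neg (by positivity), ← one_div, div_le_div_iff₀ (by positivity) hNQ]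
          linarith
  have hfin : (S / N) ^ (2 ^ Q) ≤ K * (N : ℝ) ^ (-(1 : ℝ) / (4 * Q)) := by
    refine hb.trans ?_
    calc _ ≤ Cq Q * (2 * (N : ℝ) ^ (-(1 : ℝ) / (4 * Q)) +
          (2 / c₁) * 2 ^ Q * (1 + 4 * Q) ^ Q * (N : ℝ) ^ (-(1 : ℝ) / (4 * Q))) := by
          gcongr
      _ = _ := by rw [hK]; ring
  have hroot : S / N ≤ K ^ ((1 : ℝ) / 2 ^ Q) * (N : ℝ) ^ (-η) := by
    have h1 : (S / N) = ((S / N) ^ (2 ^ Q)) ^ ((1 : ℝ) / 2 ^ Q) := by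
      rw [← Real.rpow_natCast, ← Real.rpow_mul (by positivity)]
      push_cast
      rw [mul_one_div_cancel (by positivity), Real.rpow_one]
    rw [h1]
    calc _ ≤ (K * (N : ℝ) ^ (-(1 : ℝ) / (4 * Q))) ^ ((1 : ℝ) / 2 ^ Q) := by gcongr
      _ = K ^ ((1 : ℝ) / 2 ^ Q) * (N : ℝ) ^ (-(1 : ℝ) / (4 * Q) * (1 / 2 ^ Q)) := by
          rw [Real.mul_rpow hK0.le (by positivity), ← Real.rpow_mul (by positivity)]
      _ ≤ _ := by
          gcongr
          have : -(1 : ℝ) / (4 * Q) * (1 / 2 ^ Q) = -(1 / (4 * Q * 2 ^ Q)) := by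
            field_simp
          rw [this]
  rw [div_le_iff₀ hNpos] at hroot
  calc S ≤ K ^ ((1 : ℝ) / 2 ^ Q) * (N : ℝ) ^ (-η) * N := hroot
    _ ≤ C * (N : ℝ) ^ (-η) * N := by gcongr
    _ = _ := by
      rw [mul_assoc, sub_eq_neg_add, Real.rpow_add hNpos, Real.rpow_one]

/-- Kusmin–Landau, decreasing derivative -/
lemma low_anti (L : ℕ) (u lo hi : ℝ) (φ : ℕ → ℝ → ℝ) (hlo : 0 < lo) (hhi : 2 * hi ≤ 1)
    (h : Hy 0 u (u + L) lo hi φ) : ‖∑ n ∈ range L, e (φ 0 (u + n))‖ ≤ 2 / lo := by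
  have h1 := SD_le hlo 1 one_pos h u L le_rfl le_rfl [] (by simp) (by simp) (by simpa using hhi)
  simpa [SD, Pool.Agent.TH915.PW.ED] using h1

/-- Kusmin–Landau, increasing derivative -/
lemma low_mono (L : ℕ) (u lo hi : ℝ) (φ : ℕ → ℝ → ℝ) (hlo : 0 < lo) (hhi : 2 * hi ≤ 1)
    (hder : ∀ m ≤ 1, ∀ t ∈ Set.Icc u (u + L), HasDerivAt (φ m) (φ (m + 1) t) t)
    (h1 : ∀ t ∈ Set.Icc u (u + L), lo ≤ φ 1 t) (h2 : ∀ t ∈ Set.Icc u (u + L), φ 1 t ≤ hi)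
    (h3 : ∀ t ∈ Set.Icc u (u + L), 0 ≤ φ 2 t) :
    ‖∑ n ∈ range L, e (φ 0 (u + n))‖ ≤ 1 + 2 / lo := by
  rcases Nat.eq_zero_or_pos L with rfl | hL
  · simp only [range_zero, sum_empty, norm_zero]; positivity
  obtain ⟨K, rfl⟩ : ∃ K, L = K + 1 := ⟨L - 1, by omega⟩
  -- drop the term `n = 0`, reverse the order of the other ones
  rw [sum_range_succ', ← sum_range_reflect]
  set v : ℝ := -(u + K) with hv
  set ψ : ℕ → ℝ → ℝ := fun m t => (-1) ^ (m + 1) * φ m (-t) with hψ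
  have hmem : ∀ t ∈ Set.Icc v (v + K), -t ∈ Set.Icc u (u + ((K + 1 : ℕ) : ℝ)) := by
    intro t ht
    push_cast
    constructor
    · linarith [ht.2]
    · linarith [ht.1]
  have hH : Hy 0 v (v + K) lo hi ψ := by
    constructor
    · intro m hm t ht
      have h4 := (hder m (by omega) (-t) (hmem t ht)).comp t (hasDerivAt_neg t)
      have h5 := h4.const_mul ((-1 : ℝ) ^ (m + 1))
      simp only [hψ]
      refine h5.congr_deriv ?_
      rw [pow_succ ((-1 : ℝ)) (m + 1)]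
      ring
    · intro t ht
      have := h1 (-t) (hmem t ht)
      simp only [hψ]
      norm_num
      exact this
    · intro t ht
      have := h2 (-t) (hmem t ht)
      simp only [hψ]
      norm_num
      exact this
    · intro t ht
      have := h3 (-t) (hmem t ht)
      simp only [hψ]
      norm_num
      exact this
  have h4 := low_anti K v lo hi ψ hlo hhi hH
  have h5 : ∑ j ∈ range K, e (φ 0 (u + ((K - 1 - j + 1 : ℕ) : ℝ))) =
      (starRingEnd ℂ) (∑ n ∈ range K, e (ψ 0 (v + n))) := by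
    rw [map_sum]
    refine sum_congr rfl fun n hn => ?_
    rw [mem_range] at hn
    rw [conj_e]
    congr 1
    simp only [hψ]
    have h6 : ((K - 1 - n + 1 : ℕ) : ℝ) = K - n := by
      rw [show K - 1 - n + 1 = K - n by omega, Nat.cast_sub hn.le]
    rw [h6, show -(v + (n : ℝ)) = u + (K - n) by rw [hv]; ring]
    ring
  rw [h5]
  refine (norm_add_le _ _).trans ?_
  rw [Complex.norm_conj, norm_e]
  linarith

end Pool.Agent.N542.PP
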